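import Pool.Agent.X248.DP.Main

/-!
# Down-posets can be recognised in polynomial time

Down-functions of a finite poset correspond to the sets `I` (of their fixed points) which are closed
downwards and meet every principal down-set in a set with a maximum. These are exactly the sets
which are closed downwards, contain all minimal elements, and contain all minimal upper bounds of
any two of their elements. Such sets form a closure system whose closures are computed in polynomial
time by iterating the rules. A finite poset is a down-poset if and only if, for all `c ≤ d`, all
elements below `d` in the closure of `{c}` are below `c`.
-/

set_option autoImplicit false

namespace Pool.Agent.Results.MP_dd7d0c_lc.DownPosetsInP

open Pool.Agent.NPC Pool.Agent.X248.DP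

/-- **There is a polynomial-time algorithm which decides whether a finite poset is a down-poset.**
The poset is given by the Boolean matrix of its order relation; the algorithm also checks that the
matrix gives a partial order. -/
theorem result : InPP (fun M : List (List Bool) => IsPO M ∧ IsDownPoset (rel M)) :=
  inPP_of poly_decB decB_iff

end Pool.Agent.Results.MP_dd7d0c_lc.DownPosetsInP
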